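import Pool.Agent.V7H90.OE.Final

/-!
# MP_3fc2d9_lc, Q2 (b): fast online estimators with regret `O((log n)^2)` do not always exist

The definitions `Offline`, `Online`, `InP` and `regret` are in `Pool.Agent.V7H90.OE.Defs`.
The proof diagonalises against all programs at the same time: the offline estimator is the point
mass at one string of each length `n`; the letter after a beginning `w` of this string is the
less likely one of `0` and `1` according to the program whose code has the index `|w|` modulo
`log n`, run on `w 0` and `w 1` for `n` steps.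
-/

set_option autoImplicit false

namespace Pool.Agent.Results.MP_3fc2d9_lc.PowerRegretH90

open Filter Pool.Agent.V7H90.OE

/-- Over every alphabet with at least two letters there is an offline estimator `q` in `P` such
that the regret of every online estimator in `P` relative to `q` is at least `n ^ δ` for all large
`n`, where `δ > 0` depends on the online estimator; in particular it is not `O((log n)^2)`. -/
theorem result (s : ℕ) (hs : 2 ≤ s) :
    ∃ q : List (Fin s) → ℝ, Offline q ∧ InP q ∧
      ∀ q' : List (Fin s) → ℝ, Online q' → InP q' →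
        (∃ δ : ℝ, 0 < δ ∧ ∀ᶠ n : ℕ in atTop, (((n : ℝ) ^ δ : ℝ) : EReal) ≤ regret q' q n) ∧
        ¬ ∃ C : ℝ, ∀ᶠ n : ℕ in atTop, regret q' q n ≤ ((C * Real.log n ^ 2 : ℝ) : EReal) := by
  refine ⟨pm s, pm_offline hs, pm_inP, fun q' hq' hP' => ?_⟩
  obtain ⟨δ, hδ, h⟩ := main hq' hP' hs
  have h1 : ∀ᶠ n : ℕ in atTop, (((n : ℝ) ^ δ : ℝ) : EReal) ≤ regret q' (pm s) n := by
    filter_upwards [h] with n hn
    exact regret_ge hs hn
  refine ⟨⟨δ, hδ, h1⟩, ?_⟩
  rintro ⟨C, hC⟩
  obtain ⟨n, h2, h3, h4⟩ := (h1.and (hC.and (not_polylog hδ C))).exists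
  have h5 := h2.trans h3
  rw [EReal.coe_le_coe_iff] at h5
  exact absurd h5 (not_le.2 h4)

end Pool.Agent.Results.MP_3fc2d9_lc.PowerRegretH90
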